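import Pool.Agent.R292.BB.All

/-!
Block-beta random polytopes: all expected face numbers have the order of the expected number of
facets, for all parameters `β i > -1`.
-/

set_option autoImplicit false

namespace Pool.Agent.Results.MP_26f5cf_pr.BlockBetaVertices

open Pool.Agent.W712.RP Pool.Agent.R292.BB MeasureTheory Filter Topology

/-- Let `m ≥ 1`, `d i ≥ 1`, `β i > -1` and `d = ∑ i, d i`. The beta distributions
`betaM (d i) (β i)` are probability measures; for `n ≥ d + 1` the number of `j`-faces of the convex
hull of `n` independent points with the block-beta distribution is integrable, and for every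
`j ≤ d - 1` its expectation has the same order as the expected number of facets. -/
theorem result (m : ℕ) (hm : 0 < m) (d : Fin m → ℕ) (hd : ∀ i, 0 < d i) (β : Fin m → ℝ)
    (hβ : ∀ i, -1 < β i) :
    (∀ i, IsProbabilityMeasure (betaM (d i) (β i))) ∧
    (∀ j < ∑ i, d i, ∀ n, (∑ i, d i) + 1 ≤ n →
      Integrable (fun x : Fin n → ∀ i, EuclideanSpace ℝ (Fin (d i)) =>
        (faceNum (convexHull ℝ (Set.range x)) j : ℝ)) (bbLaw d β n)) ∧
    ∀ j < ∑ i, d i, Asymp (fun n => expF d β n j)
      (fun n => expF d β n ((∑ i, d i) - 1)) :=
  finalB m hm d hd β hβ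

end Pool.Agent.Results.MP_26f5cf_pr.BlockBetaVertices
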